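import Mathlib
import Pool.Agent.H29.Circ1

open Real Set Filter Topology Pool.Agent.H29.Circ
open scoped ContDiff

namespace Pool.Agent.Results.MP_d23f22_an.Counter

/-- The lift to the plane of the standard-like map. -/
def F (V : ℝ → ℝ) (l : ℝ) (p : ℝ × ℝ) : ℝ × ℝ := (p.1 + (p.2 + l * V p.1), p.2 + l * V p.1)

/-- Every orbit of the lift that starts in `γ` has rotation number `ρ`. -/
def Rot (V : ℝ → ℝ) (l : ℝ) (γ : Set (ℝ × ℝ)) (ρ : ℝ) : Prop :=
  ∀ x : ℤ → ℝ × ℝ, (∀ n, x (n + 1) = F V l (x n)) → x 0 ∈ γ →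
    Tendsto (fun n : ℤ => ((x n).1 - (x 0).1) / n) atTop (𝓝 ρ) ∧
    Tendsto (fun n : ℤ => ((x n).1 - (x 0).1) / n) atBot (𝓝 ρ)

/-- There is a homotopically non-trivial embedded invariant circle of rotation number `ρ`,
given by its lift `c`. -/
def InvCircle (V : ℝ → ℝ) (l ρ : ℝ) : Prop :=
  ∃ c : ℝ → ℝ × ℝ, Continuous c ∧ Function.Injective c ∧ (∀ t, c (t + 1) = c t + (1, 0)) ∧
    F V l '' range c = range c ∧ Rot V l (range c) ρ

/-- There is an invariant circle of rotation number `ρ` that is the graph of an analytic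
function. -/
def AnCircle (V : ℝ → ℝ) (l ρ : ℝ) : Prop :=
  ∃ R : ℝ → ℝ, AnalyticOnNhd ℝ R univ ∧ Function.Periodic R 1 ∧
    F V l '' {p | p.2 = R p.1} = {p | p.2 = R p.1} ∧ Rot V l {p | p.2 = R p.1} ρ

/-- Diophantine numbers. -/
def Diophantine (ρ : ℝ) : Prop :=
  ∃ C d : ℝ, 0 < C ∧ 2 < d ∧ ∀ m n : ℕ, 0 < m → 0 < n → C / (n : ℝ) ^ d < |ρ - m / n|

lemma dioph : Diophantine ((√5 - 1) / 2) := by
  have hi : Irrational ((√5 - 1) / 2) := by
    have := (Nat.prime_five.irrational_sqrt.sub_natCast 1).div_natCast two_ne_zero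
    simpa using this
  obtain ⟨A, hA, h⟩ := Liouville.exists_pos_real_of_irrational_root hi
    (f := Polynomial.X ^ 2 + Polynomial.X - 1) (fun h => by
      simpa using congrArg (Polynomial.eval 0) h) (by
      simp only [Polynomial.map_sub, Polynomial.map_add, Polynomial.map_pow, Polynomial.map_X,
        Polynomial.map_one, Polynomial.eval_sub, Polynomial.eval_add, Polynomial.eval_pow,
        Polynomial.eval_X, Polynomial.eval_one]
      nlinarith [sq_sqrt (show (0:ℝ) ≤ 5 by norm_num)])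
  have hd : (Polynomial.X ^ 2 + Polynomial.X - 1 : Polynomial ℤ).natDegree ≤ 3 := by
    compute_degree!
  refine ⟨1 / (2 * A), 3, by positivity, by norm_num, fun m n _ hn => ?_⟩
  obtain ⟨b, rfl⟩ := Nat.exists_eq_succ_of_ne_zero hn.ne'
  have h1 := h m b
  have b1 : (1:ℝ) ≤ b + 1 := by linarith [(Nat.cast_nonneg b : (0:ℝ) ≤ b)]
  have h2 := h1.trans (mul_le_mul_of_nonneg_right (pow_le_pow_right₀ b1 hd) (by positivity))
  rw [show (3:ℝ) = (3:ℕ) by norm_num, rpow_natCast, div_div, div_lt_iff₀ (by positivity)]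
  push_cast at h2 ⊢
  nlinarith

theorem result : ∃ V : ℝ → ℝ, AnalyticOnNhd ℝ V univ ∧ Function.Periodic V 1 ∧ V ≠ 0 ∧
    ∫ x in (0:ℝ)..1, V x = 0 ∧ Diophantine ((√5 - 1) / 2) ∧ ∀ Λ : ℝ,
      (∃ l, 0 < l ∧ Λ < l ∧ InvCircle V l ((√5 - 1) / 2)) ∨
      (∃ l, 0 < l ∧ l < Λ ∧ ¬ AnCircle V l ((√5 - 1) / 2)) := by
  obtain ⟨h, φ, hc, hd, ho, hp, hb, φ1, φ2, a, a0, a1, a2, a3⟩ := exH
  have ρ1 : 0.618 ≤ (√5 - 1) / 2 := by
    have : 2.236 ≤ √5 := le_sqrt_of_sq_le (by norm_num)
    linarith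
  have ρ2 : (√5 - 1) / 2 ≤ 0.619 := by
    have : √5 ≤ 2.238 := sqrt_le_iff.2 ⟨by norm_num, by norm_num⟩
    linarith
  have hD := dioph
  generalize (√5 - 1) / 2 = ρ at *
  have φ0 : ∀ x, 0 < φ x := fun x => by linarith [φ1 x]
  have hm : StrictMono h := strictMono_of_hasDerivAt_pos hd φ0
  have hs := surj hc.continuous hp
  let H := (hm.orderIsoOfSurjective h hs).toHomeomorph
  have cs : ContDiff ℝ ω H.symm := H.contDiff_symm_deriv (fun x => (φ0 x).ne') hd hc
  have Hs : ∀ x, H.symm (h x) = x := H.symm_apply_apply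
  obtain ⟨V, cV, hV⟩ : ∃ V : ℝ → ℝ, ContDiff ℝ ω V ∧
      ∀ x, V (h x) = h (x + ρ) + h (x - ρ) - 2 * h x :=
    ⟨fun y => h (H.symm y + ρ) + h (H.symm y - ρ) - 2 * y, ((hc.comp (cs.add contDiff_const)).add
      (hc.comp (cs.sub contDiff_const))).sub (contDiff_const.mul contDiff_id),
      fun x => by simp only [Hs]⟩
  have pV : Function.Periodic V 1 := fun y => by
    obtain ⟨x, rfl⟩ := hs y
    rw [← hp, hV, hV, add_right_comm x, add_sub_right_comm x, hp, hp, hp]; ring
  have oV : ∀ y, V (-y) = -V y := fun y => by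
    obtain ⟨x, rfl⟩ := hs y
    rw [← ho, hV, hV, show -x + ρ = -(x - ρ) by ring, show -x - ρ = -(x + ρ) by ring, ho, ho, ho]
    ring
  have dV : ∀ x, HasDerivAt V (deriv V x) x := fun x =>
    (cV.differentiable (by simp) x).hasDerivAt
  have eV : ∀ x, deriv V (h x) * φ x = φ (x + ρ) + φ (x - ρ) - 2 * φ x := by
    intro x
    have h1 := (dV (h x)).comp x (hd x)
    rw [show V ∘ h = fun x => h (x + ρ) + h (x - ρ) - 2 * h x from funext hV] at h1
    exact h1.unique ((((hd _).comp_add_const x ρ).add ((hd _).comp_sub_const x ρ)).sub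
      ((hd x).const_mul 2))
  have far : ∀ x : ℝ, 0.6 ≤ x → x ≤ 0.7 → φ x ≤ 1 ∧ φ (-x) ≤ 1 := by
    intro x h1 h2
    have : ∀ n : ℤ, 1 / 1000 ≤ |x - n| := fun n => by
      rcases le_or_gt n 0 with hn | hn
      · have : (n:ℝ) ≤ 0 := by exact_mod_cast hn
        exact le_abs.2 (Or.inl (by linarith))
      · have : (1:ℝ) ≤ n := by exact_mod_cast hn
        exact le_abs.2 (Or.inr (by linarith))
    refine ⟨φ2 _ this, φ2 _ fun n => ?_⟩
    have := this (-n)
    rwa [← abs_neg, show -(x - ((-n : ℤ) : ℝ)) = -x - n by push_cast; ring] at this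
  have v1 : deriv V (h a) ≤ -(7 / 4) := by
    have e := eV a
    have f1 := (far (a + ρ) (by linarith) (by linarith)).1
    have f2 := (far (ρ - a) (by linarith) (by linarith)).2
    rw [neg_sub] at f2
    by_contra hh
    nlinarith
  have lip : ∀ δ, |δ| ≤ 1 / 1000 → |h (ρ + δ) - h ρ| ≤ 1 / 1000 := by
    intro δ hδ
    have k := abs_le.1 hδ
    have := (convex_Icc (0.6:ℝ) 0.7).norm_image_sub_le_of_norm_hasDerivWithin_le (C := 1)
      (fun x _ => (hd x).hasDerivWithinAt) (fun x hx => by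
        rw [norm_of_nonneg (φ0 x).le]; exact (far x hx.1 hx.2).1)
      (show ρ ∈ _ from ⟨by linarith, by linarith⟩) (show ρ + δ ∈ _ from ⟨by linarith, by linarith⟩)
    simp only [norm_eq_abs, add_sub_cancel_left] at this
    linarith
  refine ⟨V, cV.analyticOnNhd, pV, fun h0 => ?_, ?_, hD, fun Λ => ?_⟩
  · rw [h0] at v1
    simp only [deriv_zero, Pi.zero_apply] at v1
    linarith
  · have h1 := intervalIntegral.integral_comp_sub_left V (a := 0) (b := 1) 1
    have h2 : ∀ x, V (1 - x) = -V x := fun x => by rw [← oV, ← pV (-x)]; congr 1; ring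
    simp only [h2, intervalIntegral.integral_neg, sub_self, sub_zero] at h1
    linarith
  rcases lt_or_ge Λ 1 with hΛ | hΛ
  · refine Or.inl ⟨1, one_pos, hΛ, ?_⟩
    have Fc : ∀ t, F V 1 (h t, h t - h (t - ρ)) = (h (t + ρ), h (t + ρ) - h (t + ρ - ρ)) := by
      intro t
      simp only [F, hV, add_sub_cancel_right]
      congr 1 <;> ring
    refine ⟨fun t => (h t, h t - h (t - ρ)), ?_, fun s t e => hm.injective (congrArg Prod.fst e),
      fun t => ?_, ?_, fun x hx ⟨s, e⟩ => ?_⟩
    · have := hc.continuous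
      fun_prop
    · simp only [add_sub_right_comm, hp, Prod.mk_add_mk]
      congr 1; ring
    · ext p
      constructor
      · rintro ⟨_, ⟨t, rfl⟩, rfl⟩
        exact ⟨t + ρ, (Fc t).symm⟩
      · rintro ⟨t, rfl⟩
        exact ⟨_, ⟨t - ρ, rfl⟩, by simpa using Fc (t - ρ)⟩
    · have orb : ∀ n : ℤ, x n = (h (s + n * ρ), h (s + n * ρ) - h (s + n * ρ - ρ)) := by
        intro n
        induction n using Int.induction_on with
        | zero => simpa using e.symm
        | succ n ih => rw [hx, ih, Fc]; push_cast; rw [add_mul, one_mul, add_assoc]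
        | pred n ih =>
          have h1 := hx (-n - 1)
          have h2 := Fc (s + ((-n - 1 : ℤ) : ℝ) * ρ)
          rw [sub_add_cancel, ih] at h1
          rw [show s + ((-n - 1 : ℤ) : ℝ) * ρ + ρ = s + ((-n : ℤ) : ℝ) * ρ by push_cast; ring,
            h1] at h2
          simp only [F, Prod.mk.injEq] at h2
          have h3 : (x (-n - 1)).1 = h (s + ((-n - 1 : ℤ) : ℝ) * ρ) := by linarith [h2.1, h2.2]
          refine Prod.ext h3 ?_
          rw [h3] at h2
          linarith [h2.2]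
      have key : ∀ L : Filter ℤ, Tendsto (fun n : ℤ => (n:ℝ)⁻¹) L (𝓝 0) → (∀ᶠ n in L, n ≠ 0) →
          Tendsto (fun n : ℤ => ((x n).1 - (x 0).1) / n) L (𝓝 ρ) := by
        intro L h1 h2
        rw [tendsto_iff_norm_sub_tendsto_zero]
        have h3 := h1.norm.const_mul (1 / 10)
        rw [norm_zero, mul_zero] at h3
        refine squeeze_zero' (Eventually.of_forall fun _ => norm_nonneg _)
          (h2.mono fun n hn => ?_) h3
        have n0 : (n:ℝ) ≠ 0 := by exact_mod_cast hn
        rw [orb n, orb 0, show ∀ u : ℝ, u / n - ρ = (u - n * ρ) * (n:ℝ)⁻¹ from fun u => by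
          field_simp, norm_mul]
        refine mul_le_mul_of_nonneg_right ?_ (norm_nonneg _)
        have b1 := abs_le.1 (hb (s + n * ρ))
        have b2 := abs_le.1 (hb s)
        simp only [Int.cast_zero, zero_mul, add_zero]
        exact abs_le.2 ⟨by linarith, by linarith⟩
      exact ⟨key _ (tendsto_inv_atTop_zero.comp tendsto_intCast_atTop_atTop)
        (eventually_ne_atTop 0), key _ (tendsto_inv_atBot_zero.comp
          (tendsto_intCast_atBot_iff.2 tendsto_id))
        (eventually_ne_atBot 0)⟩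
  · refine Or.inr ⟨9 / 10, by norm_num, by linarith, fun ⟨R, aR, pR, hR, _⟩ => ?_⟩
    have dW : ∀ x, deriv (fun x => 9 / 10 * V x) x = 9 / 10 * deriv V x := fun x =>
      ((dV x).const_mul _).deriv
    obtain ⟨b0, y, z, e, b1, b2⟩ := conv (W := fun x => 9 / 10 * V x) (R := R)
      (contDiff_const.mul (cV.of_le (by simp))) aR.contDiff (fun x => by simp only [pV x]) pR
      (fun x => (hR.subset ⟨(x, R x), rfl, rfl⟩).symm) (h a)
    simp only [dW] at b0 b1 b2
    have near : ∀ y, 1 < (2 + 9 / 10 * deriv V y) * (2 + 9 / 10 * deriv V (h a)) →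
        ∃ n : ℤ, |y - n - h ρ| ≤ 1 / 1000 ∨ |y - n + h ρ| ≤ 1 / 1000 := by
      intro y hy
      obtain ⟨x, rfl⟩ := hs y
      by_contra hn
      push Not at hn
      have f1 : φ (x - ρ) ≤ 1 := φ2 _ fun n => by
        by_contra hh
        have := lip _ (not_le.1 hh).le
        rw [show ρ + (x - ρ - n) = x + ((-n : ℤ) : ℝ) by push_cast; ring, per_int hp] at this
        have k := (hn n).1
        push_cast at this
        rw [← sub_eq_add_neg] at this
        linarith
      have f2 : φ (x + ρ) ≤ 1 := φ2 _ fun n => by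
        by_contra hh
        have := lip (-(x + ρ - n)) (by rw [abs_neg]; exact (not_le.1 hh).le)
        rw [show ρ + -(x + ρ - n) = -x + n by ring, per_int hp, ho, ← abs_neg] at this
        have k := (hn n).2
        rw [show -(-h x + n - h ρ) = h x - n + h ρ by ring] at this
        linarith
      have e := eV x
      have g1 := φ1 x
      have : deriv V (h x) ≤ 2 / 9 := by
        by_contra hh
        nlinarith
      nlinarith
    obtain ⟨n, hn⟩ := near y b1
    obtain ⟨m, hm⟩ := near z b2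
    have l1 := abs_le.1 (lip a (abs_le.2 ⟨by linarith, a1⟩))
    have l2 := abs_le.1 (lip (-a) (abs_le.2 ⟨by linarith, by linarith⟩))
    have l3 := abs_le.1 (hb ρ)
    simp only [hV] at e
    rw [add_comm a ρ, show a - ρ = -(ρ + -a) by ring, ho, a3] at e
    have no : ∀ k : ℤ, ¬ ((k:ℝ) < n + m ∧ (n:ℝ) + m < k + 1) := fun k ⟨k1, k2⟩ => by
      have k3 : k < n + m := by exact_mod_cast k1
      have k4 : n + m < k + 1 := by exact_mod_cast k2
      omega
    rcases hn with hn | hn <;> rcases hm with hm | hm <;> rw [abs_le] at hn hm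
    · exact no (-2) ⟨by push_cast; linarith, by push_cast; linarith⟩
    · exact no 0 ⟨by push_cast; linarith, by push_cast; linarith⟩
    · exact no 0 ⟨by push_cast; linarith, by push_cast; linarith⟩
    · exact no 1 ⟨by push_cast; linarith, by push_cast; linarith⟩

end Pool.Agent.Results.MP_d23f22_an.Counter
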